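import Mathlib

/-!
# Infinite-dimensional Noetherian residually nilpotent Lie algebras

Over every field `k` of characteristic zero, the Lie algebra of all vector fields `f(x) d/dx` on the
line with `f` a polynomial divisible by `x ^ 2` (the positive part of the Witt algebra) satisfies
the maximal condition on subalgebras, is residually nilpotent and is infinite-dimensional.
-/

set_option autoImplicit false

namespace Pool.Agent.Results.MP_d0ec72_al.PositiveWitt

open Polynomial

universe u

/-- closed under sums of two distinct elements -/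
def SumClosed (T : Set ℕ) : Prop := ∀ i ∈ T, ∀ j ∈ T, i ≠ j → i + j ∈ T

lemma SumClosed.add_mul {T : Set ℕ} (h : SumClosed T) {i j : ℕ} (hi : i ∈ T) (hj : j ∈ T)
    (hij : i < j) (k : ℕ) : j + i * k ∈ T := by
  induction k with
  | zero => simpa using hj
  | succ k ih =>
    have h1 := h i hi _ ih (by have := Nat.zero_le (i * k); omega)
    have h2 : i + (j + i * k) = j + i * (k + 1) := by ring
    rwa [h2] at h1

lemma chain_stab (T : ℕ → Set ℕ) (hmono : Monotone T) (hc : ∀ n, SumClosed (T n))
    (h0 : ∀ n, 0 ∉ T n) : ∃ n, ∀ m, n ≤ m → T m ⊆ T n := by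
  classical
  by_cases hne : ∃ t, t ∈ ⋃ n, T n
  · set U := ⋃ n, T n with hU
    have hi : sInf U ∈ U := Nat.sInf_mem hne
    set i := sInf U with hidef
    have hmin : ∀ t ∈ U, i ≤ t := fun t ht => Nat.sInf_le ht
    obtain ⟨N0, hN0⟩ := Set.mem_iUnion.1 hi
    have hipos : 0 < i := Nat.pos_of_ne_zero fun h => h0 N0 (h ▸ hN0)
    -- for every residue class a stage at which the smallest element appears
    have hr : ∀ r : ℕ, ∃ N, ∀ t ∈ U, t ≠ i → t % i = r →
        ∃ m, m ∈ T N ∧ m ≠ i ∧ m % i = r ∧ m ≤ t := by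
      intro r
      by_cases hP : ∃ t, t ∈ {t ∈ U | t ≠ i ∧ t % i = r}
      · have hm := Nat.sInf_mem hP
        set m := sInf {t ∈ U | t ≠ i ∧ t % i = r} with hmdef
        obtain ⟨N, hN⟩ := Set.mem_iUnion.1 hm.1
        exact ⟨N, fun t ht h1 h2 => ⟨m, hN, hm.2.1, hm.2.2, Nat.sInf_le ⟨ht, h1, h2⟩⟩⟩
      · exact ⟨0, fun t ht h1 h2 => absurd ⟨t, ht, h1, h2⟩ hP⟩
    choose N hN using hr
    refine ⟨max N0 ((Finset.range i).sup N), fun m _ t ht => ?_⟩
    have htU : t ∈ U := Set.mem_iUnion.2 ⟨m, ht⟩
    set M := max N0 ((Finset.range i).sup N) with hM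
    have hiM : i ∈ T M := hmono (le_max_left _ _) hN0
    by_cases hti : t = i
    · rw [hti]; exact hiM
    · have hrlt : t % i < i := Nat.mod_lt _ hipos
      obtain ⟨m', hm', hm1, hm2, hm3⟩ := hN (t % i) t htU hti rfl
      have hle : N (t % i) ≤ M :=
        le_trans (Finset.le_sup (f := N) (Finset.mem_range.2 hrlt)) (le_max_right _ _)
      have hm'M : m' ∈ T M := hmono hle hm'
      have him' : i < m' :=
        lt_of_le_of_ne (hmin m' (Set.mem_iUnion.2 ⟨_, hm'⟩)) (Ne.symm hm1)
      obtain ⟨q, hq⟩ : ∃ q, t = m' + i * q := by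
        have h1 : i ∣ t - m' := (Nat.modEq_iff_dvd' hm3).1 hm2
        obtain ⟨q, hq⟩ := h1
        exact ⟨q, by omega⟩
      rw [hq]
      exact (hc M).add_mul hiM hm'M him' q
  · refine ⟨0, fun m _ t ht => ?_⟩
    exact absurd ⟨t, Set.mem_iUnion.2 ⟨m, ht⟩⟩ hne

variable {k : Type*} [Field k]

/-- The coefficient `f` of a vector field `f(x) d/dx`. -/
noncomputable def co (D : Derivation k k[X] k[X]) : k[X] := D X

lemma co_lie (D E : Derivation k k[X] k[X]) :
    co ⁅D, E⁆ = co D * derivative (co E) - co E * derivative (co D) := by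
  unfold co
  rw [Derivation.commutator_apply]
  have h : ∀ (F : Derivation k k[X] k[X]) (p : k[X]), F p = F X * derivative p := by
    intro F p
    have : F = mkDerivation k (F X) := by
      apply Polynomial.derivation_ext
      simp
    conv_lhs => rw [this]
    rw [mkDerivation_apply, smul_eq_mul, mul_comm]
  rw [h D (E X), h E (D X)]

lemma co_injective {D E : Derivation k k[X] k[X]} (h : co D = co E) : D = E :=
  Polynomial.derivation_ext h

variable (k) in
/-- The vector fields `f(x) d/dx` with `f` divisible by `x ^ m`, `m ≥ 1`, as a submodule. -/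
noncomputable def fil (m : ℕ) : Submodule k (Derivation k k[X] k[X]) where
  carrier := {D | X ^ m ∣ co D}
  add_mem' := by
    intro a b ha hb
    exact dvd_add ha hb
  zero_mem' := by
    show X ^ m ∣ co 0
    simp [co]
  smul_mem' := by
    intro c D hD
    show X ^ m ∣ co (c • D)
    have : co (c • D) = c • co D := rfl
    rw [this, smul_eq_C_mul]
    exact Dvd.dvd.mul_left hD _

lemma dvd_wronsk {f g : k[X]} {m n : ℕ} (hf : X ^ (m + 1) ∣ f) (hg : X ^ (n + 1) ∣ g) :
    X ^ (m + n + 1) ∣ f * derivative g - g * derivative f := by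
  obtain ⟨u, rfl⟩ := hf
  obtain ⟨v, rfl⟩ := hg
  refine ⟨u * (C ((n : k) + 1) * v + X * derivative v)
    - v * (C ((m : k) + 1) * u + X * derivative u), ?_⟩
  rw [derivative_mul, derivative_mul, derivative_X_pow, derivative_X_pow]
  simp only [Nat.add_sub_cancel, Nat.cast_add, Nat.cast_one, map_add, map_natCast, map_one]
  ring

variable (k) in
/-- the Lie algebra of all `f(x) d/dx` with `x ^ 2 ∣ f` -/
noncomputable def W : LieSubalgebra k (Derivation k k[X] k[X]) where
  toSubmodule := fil k 2
  lie_mem' := by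
    intro D E hD hE
    show X ^ 2 ∣ co ⁅D, E⁆
    rw [co_lie]
    exact (pow_dvd_pow X (by norm_num)).trans (dvd_wronsk (m := 1) (n := 1) hD hE)

/-- coefficient polynomial of an element of `W` -/
noncomputable def cw (D : W k) : k[X] := co (D : Derivation k k[X] k[X])

lemma cw_dvd (D : W k) : X ^ 2 ∣ cw D := D.2

lemma cw_add (D E : W k) : cw (D + E) = cw D + cw E := rfl

lemma cw_sub (D E : W k) : cw (D - E) = cw D - cw E := rfl

lemma cw_smul (c : k) (D : W k) : cw (c • D) = c • cw D := rfl

lemma cw_zero : cw (0 : W k) = 0 := rfl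

lemma cw_lie (D E : W k) :
    cw ⁅D, E⁆ = cw D * derivative (cw E) - cw E * derivative (cw D) := by
  have h : ((⁅D, E⁆ : W k) : Derivation k k[X] k[X]) =
    ⁅(D : Derivation k k[X] k[X]), (E : Derivation k k[X] k[X])⁆ := rfl
  unfold cw
  rw [h, co_lie]

lemma cw_eq_zero {D : W k} (h : cw D = 0) : D = 0 := by
  apply Subtype.ext
  exact co_injective (by rw [show co ((0 : W k) : Derivation k k[X] k[X]) = 0 from rfl]; exact h)

lemma cw_ne_zero {D : W k} (h : D ≠ 0) : cw D ≠ 0 := fun h' => h (cw_eq_zero h')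

lemma exists_cw (p : k[X]) (hp : X ^ 2 ∣ p) : ∃ D : W k, cw D = p := by
  have h : co (mkDerivation k p) = p := by
    unfold co
    rw [mkDerivation_X]
  exact ⟨⟨mkDerivation k p, by show X ^ 2 ∣ co (mkDerivation k p); rw [h]; exact hp⟩, h⟩

lemma two_le_natDegree {D : W k} (h : D ≠ 0) : 2 ≤ (cw D).natDegree := by
  obtain ⟨q, hq⟩ := cw_dvd D
  have hne := cw_ne_zero h
  have hq0 : q ≠ 0 := by
    rintro rfl
    exact hne (by rw [hq, mul_zero])
  rw [hq, natDegree_mul (pow_ne_zero _ X_ne_zero) hq0, natDegree_X_pow]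
  omega

/-- the leading term of a bracket -/
lemma lie_lead [CharZero k] {D E : W k} (hD : D ≠ 0) (hE : E ≠ 0)
    (h : (cw D).natDegree ≠ (cw E).natDegree) :
    ⁅D, E⁆ ≠ 0 ∧ (cw ⁅D, E⁆).natDegree = (cw D).natDegree + (cw E).natDegree - 1 := by
  set f := cw D with hf
  set g := cw E with hg
  have hm := two_le_natDegree hD
  have hn := two_le_natDegree hE
  rw [← hf] at hm
  rw [← hg] at hn
  have hlf : f.leadingCoeff ≠ 0 := leadingCoeff_ne_zero.2 (cw_ne_zero hD)
  have hlg : g.leadingCoeff ≠ 0 := leadingCoeff_ne_zero.2 (cw_ne_zero hE)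
  have hc : ∀ (a b : k[X]), 1 ≤ b.natDegree →
      (a * derivative b).coeff (a.natDegree + b.natDegree - 1) =
        a.leadingCoeff * (b.leadingCoeff * (b.natDegree : k)) := by
    intro a b hb
    have h1 : a.natDegree + b.natDegree - 1 = a.natDegree + (b.natDegree - 1) := by omega
    rw [h1, coeff_mul_add_eq_of_natDegree_le le_rfl (natDegree_derivative_le b),
      coeff_derivative, Nat.sub_add_cancel hb]
    have h2 : ((b.natDegree - 1 : ℕ) : k) + 1 = (b.natDegree : k) := by
      have h3 : ((b.natDegree - 1 + 1 : ℕ) : k) = (b.natDegree : k) := by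
        rw [Nat.sub_add_cancel hb]
      rwa [Nat.cast_add, Nat.cast_one] at h3
    rw [h2]
    rfl
  have hdeg : (cw ⁅D, E⁆).natDegree ≤ f.natDegree + g.natDegree - 1 := by
    rw [cw_lie, ← hf, ← hg]
    have key : ∀ a b : k[X], 2 ≤ b.natDegree →
        (a * derivative b).natDegree ≤ a.natDegree + b.natDegree - 1 := by
      intro a b hb
      refine natDegree_mul_le.trans ?_
      have := natDegree_derivative_le b
      omega
    refine (natDegree_sub_le _ _).trans (max_le (key f g hn) ?_)
    have := key g f hm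
    omega
  have hco : (cw ⁅D, E⁆).coeff (f.natDegree + g.natDegree - 1) ≠ 0 := by
    rw [cw_lie, ← hf, ← hg, coeff_sub, hc f g (by omega), add_comm f.natDegree,
      hc g f (by omega)]
    have h3 : f.leadingCoeff * (g.leadingCoeff * (g.natDegree : k)) -
        g.leadingCoeff * (f.leadingCoeff * (f.natDegree : k)) =
        f.leadingCoeff * g.leadingCoeff * ((g.natDegree : k) - (f.natDegree : k)) := by ring
    rw [h3]
    refine mul_ne_zero (mul_ne_zero hlf hlg) (sub_ne_zero.2 ?_)
    exact fun h4 => h (Nat.cast_injective h4).symm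
  have hdeg2 : (cw ⁅D, E⁆).natDegree = f.natDegree + g.natDegree - 1 :=
    le_antisymm hdeg (le_natDegree_of_ne_zero hco)
  refine ⟨fun h0 => hco ?_, hdeg2⟩
  rw [h0, cw_zero, coeff_zero]

/-- the reduced degrees of the nonzero elements of a subalgebra -/
def degs (H : LieSubalgebra k (W k)) : Set ℕ :=
  {n | ∃ D ∈ H, D ≠ 0 ∧ (cw D).natDegree = n + 1}

lemma degs_mono {H H' : LieSubalgebra k (W k)} (h : H ≤ H') : degs H ⊆ degs H' := by
  rintro n ⟨D, hD, h1, h2⟩
  exact ⟨D, h hD, h1, h2⟩

lemma degs_zero (H : LieSubalgebra k (W k)) : 0 ∉ degs H := by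
  rintro ⟨D, hD, h1, h2⟩
  have := two_le_natDegree h1
  omega

lemma degs_closed [CharZero k] (H : LieSubalgebra k (W k)) : SumClosed (degs H) := by
  rintro i ⟨D, hD, hD0, hDi⟩ j ⟨E, hE, hE0, hEj⟩ hij
  obtain ⟨h1, h2⟩ := lie_lead hD0 hE0 (by omega)
  exact ⟨⁅D, E⁆, H.lie_mem hD hE, h1, by omega⟩

/-- a subalgebra is determined inside a bigger one by its set of degrees -/
lemma eq_of_degs {H H' : LieSubalgebra k (W k)} (h : H ≤ H') (hd : degs H' ⊆ degs H) :
    H' ≤ H := by
  have key : ∀ n : ℕ, ∀ D ∈ H', (cw D).natDegree ≤ n → D ∈ H := by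
    intro n
    induction n with
    | zero =>
      intro D hD hn
      by_cases h0 : D = 0
      · rw [h0]; exact H.zero_mem
      · have := two_le_natDegree h0
        omega
    | succ n ih =>
      intro D hD hn
      by_cases h0 : D = 0
      · rw [h0]; exact H.zero_mem
      have h2 := two_le_natDegree h0
      obtain ⟨E, hE, hE0, hEn⟩ := hd (show (cw D).natDegree - 1 ∈ degs H' from
        ⟨D, hD, h0, by omega⟩)
      have hdeg : (cw E).natDegree = (cw D).natDegree := by omega
      set c := (cw D).leadingCoeff / (cw E).leadingCoeff with hc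
      have hlE : (cw E).leadingCoeff ≠ 0 := leadingCoeff_ne_zero.2 (cw_ne_zero hE0)
      have h3 : D - c • E ∈ H := by
        apply ih
        · exact H'.sub_mem hD (H'.smul_mem c (h hE))
        · rw [cw_sub, cw_smul]
          have hle : (cw D - c • cw E).natDegree ≤ (cw D).natDegree := by
            refine (natDegree_sub_le _ _).trans (max_le le_rfl ?_)
            exact (natDegree_smul_le _ _).trans hdeg.le
          have hco : (cw D - c • cw E).coeff (cw D).natDegree = 0 := by
            rw [coeff_sub, coeff_smul, smul_eq_mul]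
            have h4 : (cw E).coeff (cw D).natDegree = (cw E).leadingCoeff := by
              rw [← hdeg]; rfl
            rw [h4, hc, div_mul_cancel₀ _ hlE]
            exact sub_self _
          by_contra hlt
          have h5 : (cw D - c • cw E).natDegree = (cw D).natDegree := by omega
          have h6 : (cw D - c • cw E).leadingCoeff = 0 := by
            rw [leadingCoeff, h5]; exact hco
          rw [leadingCoeff_eq_zero] at h6
          rw [h6, natDegree_zero] at h5
          omega
      have h7 : D = (D - c • E) + c • E := by abel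
      rw [h7]
      exact H.add_mem h3 (H.smul_mem c hE)
  exact fun D hD => key _ D hD le_rfl

/-- the maximal condition on subalgebras -/
lemma noetherian [CharZero k] (f : ℕ →o LieSubalgebra k (W k)) :
    ∃ n, ∀ m, n ≤ m → f m = f n := by
  obtain ⟨n, hn⟩ := chain_stab (fun n => degs (f n)) (fun a b hab => degs_mono (f.monotone hab))
    (fun n => degs_closed _) (fun n => degs_zero _)
  refine ⟨n, fun m hm => le_antisymm ?_ (f.monotone hm)⟩
  exact eq_of_degs (f.monotone hm) (hn m hm)

variable (k) in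
/-- the ideal of all `f(x) d/dx` with `x ^ (m + 2) ∣ f` -/
noncomputable def I (m : ℕ) : LieIdeal k (W k) where
  carrier := {D | X ^ (m + 2) ∣ cw D}
  add_mem' := by
    intro a b ha hb
    show _ ∣ cw (a + b)
    rw [cw_add]
    exact dvd_add ha hb
  zero_mem' := by
    show _ ∣ cw (0 : W k)
    rw [cw_zero]
    exact dvd_zero _
  smul_mem' := by
    intro c D hD
    show _ ∣ cw (c • D)
    rw [cw_smul, smul_eq_C_mul]
    exact Dvd.dvd.mul_left hD _
  lie_mem := by
    intro D E hE
    show _ ∣ cw ⁅D, E⁆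
    rw [cw_lie]
    have h1 : X ^ (1 + 1) ∣ cw D := cw_dvd D
    have h2 : X ^ ((m + 1) + 1) ∣ cw E := hE
    have h3 := dvd_wronsk h1 h2
    exact (pow_dvd_pow X (by omega)).trans h3

lemma lie_mem_I {m : ℕ} (D E : W k) (hE : E ∈ I k m) : ⁅D, E⁆ ∈ I k (m + 1) := by
  show _ ∣ cw ⁅D, E⁆
  rw [cw_lie]
  have h1 : X ^ (1 + 1) ∣ cw D := cw_dvd D
  have h2 : X ^ ((m + 1) + 1) ∣ cw E := hE
  have h3 := dvd_wronsk h1 h2
  exact (pow_dvd_pow X (by omega)).trans h3

lemma lcs_le (m : ℕ) : LieModule.lowerCentralSeries k (W k) (W k) m ≤ I k m := by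
  induction m with
  | zero =>
    intro D _
    exact cw_dvd D
  | succ m ih =>
    rw [LieModule.lowerCentralSeries_succ, LieSubmodule.lieIdeal_oper_eq_span,
      LieSubmodule.lieSpan_le]
    rintro _ ⟨D, E, rfl⟩
    exact lie_mem_I _ _ (ih E.2)

lemma nilpotent_quotient (m : ℕ) : LieRing.IsNilpotent (W k ⧸ I k m) := by
  have h1 : LieModule.lowerCentralSeries k (W k) (W k ⧸ I k m) m = ⊥ := by
    rw [← LieModule.map_lowerCentralSeries_eq m
      (LieSubmodule.Quotient.surjective_mk' (I k m)), LieSubmodule.Quotient.map_mk'_eq_bot_le]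
    exact lcs_le m
  rw [LieRing.IsNilpotent, LieModule.isNilpotent_iff k]
  refine ⟨m, ?_⟩
  have h2 := coe_lowerCentralSeries_ideal_quot_eq (I := I k m) m
  rw [h1] at h2
  rw [← LieSubmodule.toSubmodule_eq_bot, ← h2]
  rfl

lemma not_finite : ¬ FiniteDimensional k (W k) := by
  intro hfin
  have h1 : ∀ n : ℕ, ∃ D : W k, cw D = X ^ (n + 2) := fun n =>
    exists_cw _ (pow_dvd_pow X (by omega))
  choose D hD using h1
  refine Module.Finite.not_linearIndependent_of_infinite (R := k) D ?_
  let φ : W k →ₗ[k] k[X] :=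
    { toFun := cw, map_add' := cw_add, map_smul' := cw_smul }
  apply LinearIndependent.of_comp φ
  have h2 : (φ ∘ D) = (fun n : ℕ => (X : k[X]) ^ n) ∘ (fun n => n + 2) := by
    funext n
    exact hD n
  rw [h2]
  have h3 : LinearIndependent k (fun n : ℕ => (X : k[X]) ^ n) := by
    have h4 := (Polynomial.basisMonomials k).linearIndependent
    have h5 : (Polynomial.basisMonomials k : ℕ → k[X]) = fun n : ℕ => (X : k[X]) ^ n := by
      funext n
      rw [Polynomial.coe_basisMonomials]
      exact (X_pow_eq_monomial n).symm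
    rwa [h5] at h4
  exact h3.comp _ (fun a b hab => by simpa using hab)

/-- Over every field of characteristic zero there is an infinite-dimensional Lie algebra that
satisfies the maximal condition on subalgebras and is residually nilpotent. -/
theorem result {k : Type u} [Field k] [CharZero k] :
    ∃ (L : Type u) (_ : LieRing L) (_ : LieAlgebra k L),
      ¬ FiniteDimensional k L ∧
      (∀ f : ℕ →o LieSubalgebra k L, ∃ n, ∀ m, n ≤ m → f m = f n) ∧
      (∀ x : L, x ≠ 0 → ∃ J : LieIdeal k L, x ∉ J ∧ LieRing.IsNilpotent (L ⧸ J)) := by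
  refine ⟨W k, inferInstance, inferInstance, not_finite, noetherian, fun D hD => ?_⟩
  refine ⟨I k (cw D).natDegree, fun hmem => ?_, nilpotent_quotient _⟩
  have h1 : X ^ ((cw D).natDegree + 2) ∣ cw D := hmem
  have h2 := natDegree_le_of_dvd h1 (cw_ne_zero hD)
  rw [natDegree_X_pow] at h2
  omega

end Pool.Agent.Results.MP_d0ec72_al.PositiveWitt
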